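import Pool.Agent.V1171.LC.Geo

/-!
Continuity of the Lempert function does not imply pseudoconvexity, even for bounded domains with
smooth boundary: the Lempert function of the spherical shell `{1/2 < ‖x‖ < 1}` in `ℂⁿ`, `n ≥ 2`,
is continuous.

Lower semicontinuity: given `z, w` in the shell, a polynomial map `Ψ x = (1 + ε P x) x` fixes `z`
and `w` and maps each closed shell `{1/2 ≤ ‖x‖ ≤ R}`, `R < 1`, into the open shell with a margin;
so a disc through points near `z, w` can be pushed off the inner sphere and corrected to a disc
through `z, w` at the price of a small dilation.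
-/

set_option autoImplicit false

open Metric Set

namespace Pool.Agent.Results.MP_5a1ff8_an.ContinuousNotPseudoconvex

open Pool.Agent.V1171.LC

/-- For every `n ≥ 2` there is a bounded domain in `ℂⁿ` with `C¹`-smooth boundary whose Lempert
function is (finite and) continuous on `D × D`, but which is not pseudoconvex. -/
theorem result (n : ℕ) (hn : 2 ≤ n) : ∃ D : Set (EuclideanSpace ℂ (Fin n)),
    IsOpen D ∧ IsConnected D ∧ Bornology.IsBounded D ∧ HasC1Boundary D ∧
    (∀ z ∈ D, ∀ w ∈ D, ∃ f l, IsDisc D f l z w) ∧
    ContinuousOn (fun p : EuclideanSpace ℂ (Fin n) × EuclideanSpace ℂ (Fin n) =>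
      lempert D p.1 p.2) (D ×ˢ D) ∧
    ¬ IsPseudoconvex D := by
  have hall := fun z hz w hw =>
    shell_disc (E := EuclideanSpace ℂ (Fin n)) (a := 1 / 2) (by norm_num) z hz w hw
  exact ⟨shell (EuclideanSpace ℂ (Fin n)) (1 / 2), isOpen_shell _, isConnected_shell hn,
    isBounded_shell _, hasC1Boundary_shell, hall, continuousOn_lempert (by norm_num) hall,
    not_pseudoconvex_shell hn⟩

end Pool.Agent.Results.MP_5a1ff8_an.ContinuousNotPseudoconvex
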